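import Pool.Agent.T6.H32.NC.Tr
import Pool.Agent.Y483.PW.Int
import Pool.Agent.R615.KU.Wr

/-!
The universal pair of cocycles over a given cocycle, and the system of supports of its group.
-/

set_option autoImplicit false

namespace Pool.Agent.T6.H32.NC

open Finsupp Pool.Agent.Y483 CategoryTheory Pool.Agent.Y483.PW Pool.Agent.R615.KU
  Pool.Agent.Y75.MQ Pool.Agent.Y110.KW Pointwise

section Uni

variable {G A K : Type} [Group G] [Group K] (κ : FinPair G A K)

/-- The set `A` with the action of `G`. -/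
def Pt (_ : FinPair G A K) : Type := A

instance ptAct : MulAction G (Pt κ) where
  smul g a := κ.σ g a
  one_smul a := by
    change κ.σ 1 a = a
    rw [map_one]
    rfl
  mul_smul g h a := by
    change κ.σ (g * h) a = κ.σ g (κ.σ h a)
    rw [map_mul]
    rfl

theorem pt_smul (g : G) (a : Pt κ) : g • a = κ.σ g a := rfl

/-- The first cocycle, on the set `Pt κ`. -/
def cP (g : G) (a : Pt κ) : K := κ.c g a

/-- The second cocycle, on the set `Pt κ`. -/
def dP (g : G) (a : Pt κ) : K := κ.d g a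

theorem cP_mul (g h : G) (a : Pt κ) : cP κ (g * h) a = cP κ g (h • a) * cP κ h a :=
  κ.mul_c g h a

theorem dP_mul (g h : G) (a : Pt κ) : dP κ (g * h) a = dP κ g (h • a) * dP κ h a :=
  κ.mul_d g h a

theorem cP_one (a : Pt κ) : cP κ 1 a = 1 := cocycle_one κ.mul_c a

theorem dP_one (a : Pt κ) : dP κ 1 a = 1 := cocycle_one κ.mul_d a

/-- The monomial action on the functions of finite support. -/
def twS (g : G) (n : RF K (Pt κ)) : RF K (Pt κ) :=
  ⟨fun b => cP κ g (g⁻¹ • b) * n.1 (g⁻¹ • b) * (cP κ g (g⁻¹ • b))⁻¹, by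
    refine (n.2.image (fun v => g • v)).subset ?_
    intro v hv
    refine ⟨g⁻¹ • v, ?_, smul_inv_smul g v⟩
    rw [Function.mem_mulSupport] at hv ⊢
    intro h
    apply hv
    rw [h, mul_one, mul_inv_cancel]⟩

theorem twS_apply (g : G) (n : RF K (Pt κ)) (b : Pt κ) : (twS κ g n).1 b =
    cP κ g (g⁻¹ • b) * n.1 (g⁻¹ • b) * (cP κ g (g⁻¹ • b))⁻¹ := rfl

theorem twS_one (n : RF K (Pt κ)) : twS κ 1 n = n := by
  apply Subtype.ext
  funext b
  rw [twS_apply, inv_one, one_smul, cP_one, one_mul, inv_one, mul_one]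

theorem twS_twS (g h : G) (n : RF K (Pt κ)) : twS κ g (twS κ h n) = twS κ (g * h) n := by
  apply Subtype.ext
  funext b
  rw [twS_apply, twS_apply, twS_apply, cP_mul, mul_inv_rev, mul_smul, smul_inv_smul]
  group

/-- The monomial action. -/
def twAct : G →* MulAut (RF K (Pt κ)) where
  toFun g :=
    { toFun := twS κ g
      invFun := twS κ g⁻¹
      left_inv := fun n => by rw [twS_twS, inv_mul_cancel, twS_one]
      right_inv := fun n => by rw [twS_twS, mul_inv_cancel, twS_one]
      map_mul' := fun a b => by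
        apply Subtype.ext
        funext v
        change cP κ g (g⁻¹ • v) * (a.1 (g⁻¹ • v) * b.1 (g⁻¹ • v)) * (cP κ g (g⁻¹ • v))⁻¹ =
          (cP κ g (g⁻¹ • v) * a.1 (g⁻¹ • v) * (cP κ g (g⁻¹ • v))⁻¹) *
            (cP κ g (g⁻¹ • v) * b.1 (g⁻¹ • v) * (cP κ g (g⁻¹ • v))⁻¹)
        group }
  map_one' := by
    apply MulEquiv.ext
    intro n
    exact twS_one κ n
  map_mul' g h := by
    apply MulEquiv.ext
    intro n
    exact (twS_twS κ g h n).symm

/-- The system of supports. -/
noncomputable def twSys : Sys G (RF K (Pt κ)) (Pt κ) where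
  φ := twAct κ
  e := rfE
  inter := (rfSys K (Pt κ) G).inter
  equivariant γ S n := by
    classical
    apply Subtype.ext
    funext v
    rw [rfE_apply]
    change cP κ γ (γ⁻¹ • v) * (rfE S n).1 (γ⁻¹ • v) * (cP κ γ (γ⁻¹ • v))⁻¹ =
      if v ∈ γ • S then cP κ γ (γ⁻¹ • v) * n.1 (γ⁻¹ • v) * (cP κ γ (γ⁻¹ • v))⁻¹ else 1
    rw [rfE_apply]
    by_cases h : v ∈ γ • S
    · rw [if_pos h, if_pos (Set.mem_smul_set_iff_inv_smul_mem.mp h)]
    · rw [if_neg h, if_neg fun h' => h (Set.mem_smul_set_iff_inv_smul_mem.mpr h'), mul_one,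
        mul_inv_cancel]
  finite := (rfSys K (Pt κ) G).finite

/-- The group of the system. -/
abbrev UG : Type := (twSys κ).G

theorem ug_left (w x : UG κ) (b : Pt κ) : (w * x).left.1 b =
    w.left.1 b * (cP κ w.right (w.right⁻¹ • b) * x.left.1 (w.right⁻¹ • b) *
      (cP κ w.right (w.right⁻¹ • b))⁻¹) := rfl

/-- The second cocycle of the universal pair. -/
def uD (w : UG κ) (a : Pt κ) : K := w.left.1 (w.right • a) * cP κ w.right a

theorem uD_mul (w x : UG κ) (a : Pt κ) : uD κ (w * x) a = uD κ w (x.right • a) * uD κ x a := by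
  unfold uD
  rw [ug_left, SemidirectProduct.mul_right, mul_smul, inv_smul_smul, cP_mul]
  group

theorem uD_fin (w : UG κ) : {a | cP κ w.right a ≠ uD κ w a}.Finite := by
  have h1 : (Function.mulSupport w.left.1).Finite := w.left.2
  refine (h1.preimage ((MulAction.injective w.right).injOn)).subset ?_
  intro a ha h2
  apply ha
  have h3 : w.left.1 (w.right • a) = 1 := h2
  unfold uD
  rw [h3, one_mul]

/-- The universal pair. -/
noncomputable def uni : FinPair (UG κ) A K where
  σ := κ.σ.comp SemidirectProduct.rightHom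
  c w a := κ.c w.right a
  d w a := uD κ w a
  mul_c w x a := κ.mul_c w.right x.right a
  mul_d w x a := uD_mul κ w x a
  fin w := uD_fin κ w

/-- The function of the quotients of the labels. -/
def quo (g : G) : RF K (Pt κ) :=
  ⟨fun b => dP κ g (g⁻¹ • b) * (cP κ g (g⁻¹ • b))⁻¹, by
    refine ((κ.fin g).image (fun v : Pt κ => g • v)).subset ?_
    intro v hv
    refine ⟨g⁻¹ • v, ?_, smul_inv_smul g v⟩
    intro h
    apply hv
    have h' : cP κ g (g⁻¹ • v) = dP κ g (g⁻¹ • v) := h
    change dP κ g (g⁻¹ • v) * (cP κ g (g⁻¹ • v))⁻¹ = 1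
    rw [h', mul_inv_cancel]⟩

theorem quo_apply (g : G) (b : Pt κ) :
    (quo κ g).1 b = dP κ g (g⁻¹ • b) * (cP κ g (g⁻¹ • b))⁻¹ := rfl

/-- The section given by the second cocycle. -/
def sec : G →* UG κ where
  toFun g := ⟨quo κ g, g⟩
  map_one' := by
    apply SemidirectProduct.ext
    · apply Subtype.ext
      funext b
      change (quo κ 1).1 b = 1
      rw [quo_apply, cP_one, dP_one, inv_one, mul_one]
    · rfl
  map_mul' g h := by
    apply SemidirectProduct.ext
    · apply Subtype.ext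
      funext b
      rw [ug_left]
      change (quo κ (g * h)).1 b = (quo κ g).1 b * (cP κ g (g⁻¹ • b) *
          (quo κ h).1 (g⁻¹ • b) * (cP κ g (g⁻¹ • b))⁻¹)
      rw [quo_apply, quo_apply, quo_apply, cP_mul, dP_mul, mul_inv_rev, mul_smul, smul_inv_smul]
      group
    · rfl

theorem uD_sec (g : G) (a : Pt κ) : uD κ (sec κ g) a = dP κ g a := by
  unfold uD
  change (quo κ g).1 (g • a) * cP κ g a = dP κ g a
  rw [quo_apply, inv_smul_smul]
  exact inv_mul_cancel_right _ _

theorem comp_uni : compP (uni κ) (sec κ) = κ := by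
  have h2 : (compP (uni κ) (sec κ)).d = κ.d := funext fun g => funext fun a => uD_sec κ g a
  have h3 : (compP (uni κ) (sec κ)).σ = κ.σ := MonoidHom.ext fun g => rfl
  have h4 : (compP (uni κ) (sec κ)).c = κ.c := rfl
  generalize compP (uni κ) (sec κ) = μ at h2 h3 h4
  cases κ
  cases μ
  simp only [FinPair.mk.injEq]
  exact ⟨h3, h4, h2⟩

end Uni

section Label

variable {G A K L : Type} [Group G] [Group K] [Group L]

/-- The label of a fixed point. -/
def lh (σ : G →* Equiv.Perm A) (c : G → A → K)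
    (h : ∀ g h a, c (g * h) a = c g (σ h a) * c h a) (j : L →* G) (a : A)
    (ha : ∀ g, σ (j g) a = a) : L →* K where
  toFun g := c (j g) a
  map_one' := by rw [map_one]; exact cocycle_one h a
  map_mul' g k := by rw [map_mul, h, ha]

open Classical in
/-- The label of a fixed point, and the trivial homomorphism at the other points. -/
noncomputable def lhT (σ : G →* Equiv.Perm A) (c : G → A → K)
    (h : ∀ g h a, c (g * h) a = c g (σ h a) * c h a) (j : L →* G) (a : A) : L →* K :=
  if ha : ∀ g, σ (j g) a = a then lh σ c h j a ha else 1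

theorem lhT_apply {σ : G →* Equiv.Perm A} {c : G → A → K}
    (h : ∀ g h a, c (g * h) a = c g (σ h a) * c h a) (j : L →* G) (a : A)
    (ha : ∀ g, σ (j g) a = a) (g : L) : lhT σ c h j a g = c (j g) a := by
  unfold lhT
  rw [dif_pos ha]
  rfl

end Label

section Comm

variable {G A K : Type} [Group G] [Group K] (κ : FinPair G A K)
  {E : GrpCat.{0} ⥤ ModuleCat.{0} ℚ}

/-- The component of a transformation. -/
noncomputable def ap {j : ℕ} (α : hq j ⟶ E) (G : Type) [Group G] :
    HQ j G →ₗ[ℚ] E.obj (GrpCat.of G) := (α.app (GrpCat.of G)).hom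

theorem ap_nat {j : ℕ} (α : hq j ⟶ E) {G K : Type} [Group G] [Group K] (f : G →* K)
    (x : HQ j G) : ap α K (hqMap f j x) = emap E f (ap α G x) := by
  have h := α.naturality (GrpCat.ofHom f)
  exact congrArg (fun g => g.hom x) h

/-- The rational homology of the universal group is generated by the images of the groups which
fix the elements of a finite set and are supported on this set. -/
theorem gen_uni (n : ℕ) (x : HQ n (UG κ)) (P : HQ n (UG κ) → Prop) (h0 : P 0)
    (hadd : ∀ a b, P a → P b → P (a + b)) (hsmul : ∀ (r : ℚ) a, P a → P (r • a))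
    (hf : ∀ (L : Type) (_ : Group L) (f : L →* UG κ) (σ : Finset (Pt κ)) (u : HQ n L),
      (∀ l, f l ∈ (twSys κ).supG σ) → P (hqMap f n u)) : P x := by
  obtain ⟨I, y, rfl⟩ := (twSys κ).span_basQ n x
  apply Finset.sum_induction _ P hadd h0
  intro σ _
  unfold Sys.basQ
  apply Finset.sum_induction _ P hadd h0
  intro U hU
  apply hsmul
  have hU' := Finset.mem_powerset.mp hU
  have hfix : (twSys κ).Fix ((twSys κ).fixG σ).subtype σ := fun l v hv => l.2 v hv
  apply hf _ _ _ U
  intro l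
  have e := (twSys κ).cutT_apply ((twSys κ).fixG σ).subtype (U : Set (Pt κ))
    (hfix.smul (twSys κ) hU') l
  rw [e]
  refine ⟨?_, fun v hv => hfix l v (hU' hv)⟩
  change (twSys κ).e (U : Set (Pt κ)) ((twSys κ).e (U : Set (Pt κ)) _) =
    (twSys κ).e (U : Set (Pt κ)) _
  rw [(twSys κ).inter, Set.inter_self]

theorem uD_out {w : UG κ} {σ : Finset (Pt κ)} (hw : w ∈ (twSys κ).supG σ) (a : Pt κ)
    (ha : a ∉ σ) : uD κ w a = cP κ w.right a := by
  classical
  have h3 : w.right • a ∉ (σ : Set (Pt κ)) := by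
    intro h
    apply ha
    have h4 := hw.2 _ h
    have h5 := MulAction.injective w.right h4
    rw [h5] at h
    exact h
  have h4 := congrArg (fun n : RF K (Pt κ) => n.1 (w.right • a)) hw.1
  have h5 : (rfE (σ : Set (Pt κ)) w.left).1 (w.right • a) = w.left.1 (w.right • a) := h4
  rw [rfE_apply, if_neg h3] at h5
  unfold uD
  rw [← h5, one_mul]

theorem comm_uni (hE : HasPT E) : ∃ Φ : E.obj (GrpCat.of (UG κ)) →ₗ[ℚ] E.obj (GrpCat.of K),
    ∀ (n : ℕ) (α : hq n ⟶ E) (x : HQ n (UG κ)),
      Φ (ap α (UG κ) x) = ap α K (trH (uni κ) n x) := by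
  obtain ⟨Φ, hΦ⟩ := hE (UG κ) A K (uni κ)
  refine ⟨Φ, ?_⟩
  intro n α x
  refine gen_uni κ n x (fun x => Φ (ap α (UG κ) x) = ap α K (trH (uni κ) n x)) ?_ ?_ ?_ ?_
  · rw [map_zero, map_zero, map_zero, map_zero]
  · intro a b ha hb
    simp only [map_add]
    rw [ha, hb]
  · intro r a ha
    simp only [map_smul]
    rw [ha]
  · intro L _ f σ u hf
    have key : ∀ Y : Finset A, (∀ a : A, a ∈ Y ↔ (show Pt κ from a) ∈ σ) →
        Φ (ap α (UG κ) (hqMap f n u)) = ap α K (trH (uni κ) n (hqMap f n u)) := by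
      intro Y hY
      have h1 : ∀ a ∈ Y, ∀ g, (uni κ).σ (f g) a = a ∧
          lhT (uni κ).σ (uni κ).c (uni κ).mul_c f a g = (uni κ).c (f g) a ∧
          lhT (uni κ).σ (uni κ).d (uni κ).mul_d f a g = (uni κ).d (f g) a := by
        intro a ha g
        have h2 : ∀ g, (uni κ).σ (f g) a = a := fun g => (hf g).2 a ((hY a).mp ha)
        exact ⟨h2 g, lhT_apply _ f a h2 g, lhT_apply _ f a h2 g⟩
      have h2 : ∀ a ∉ Y, ∀ g, (uni κ).c (f g) a = (uni κ).d (f g) a := by
        intro a ha g
        exact (uD_out κ (hf g) a (fun h => ha ((hY a).mpr h))).symm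
      have h3 := hΦ L f Y _ _ h1 h2 (ap α L u)
      have h4 := trH_fix (uni κ) f Y _ _ h1 h2 n u
      rw [h4, map_sum, ap_nat, h3]
      apply Finset.sum_congr rfl
      intro a _
      rw [map_sub, ap_nat, ap_nat]
    exact key σ fun a => Iff.rfl

/-- **Natural transformations commute with the transfers along pairs.** -/
theorem comm (hE : HasPT E) : ∃ Φ : E.obj (GrpCat.of G) →ₗ[ℚ] E.obj (GrpCat.of K),
    ∀ (n : ℕ) (α : hq n ⟶ E) (x : HQ n G), Φ (ap α G x) = ap α K (trH κ n x) := by
  obtain ⟨Φ, hΦ⟩ := comm_uni κ hE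
  refine ⟨Φ ∘ₗ (emap E (sec κ)), ?_⟩
  intro n α x
  rw [LinearMap.comp_apply, ← ap_nat, hΦ, ← trH_comp, comp_uni]

end Comm

end Pool.Agent.T6.H32.NC
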