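import Pool.Agent.T6.H32.NC.Hp
import Pool.Agent.T6.H32.NC.Uni
import Pool.Agent.R615.KU.Cls2

/-!
Products of degree-one classes with coefficients in permutation modules.
-/

set_option autoImplicit false

namespace Pool.Agent.T6.H32.NC

open Finsupp Pool.Agent.Y483 CategoryTheory Pool.Agent.Y483.PW Pool.Agent.R615.KU
  Pool.Agent.Y75.MQ Pool.Agent.Y110.KW Pool.Agent.R793.Mag Pointwise

section Lab

variable {G H : Type} [Group G] [Group H] {n : ℕ} {A : Fin n → Type} [∀ i, MulAction G (A i)]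

/-- Crossed homomorphisms to the permutation modules `ℤ[A i]`, written as functions. -/
structure CrossLab (π : H →* G) (l : H → (Σ i, A i) → ℤ) : Prop where
  mul : ∀ g h v, l (g * h) v = l g v + l h ((π g)⁻¹ • v)
  fin : ∀ g, {v | l g v ≠ 0}.Finite

/-- The product of the differences of the coefficients at `a`. -/
noncomputable def hpa (l : H → (Σ i, A i) → ℤ) (a : ∀ i, A i) : T (n + 1) H ℚ →ₗ[ℚ] ℚ :=
  hp n (fun i g => (l g ⟨i, a i⟩ : ℚ))

/-- The value of `hpa` on a simplex. -/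
noncomputable def val (l : H → (Σ i, A i) → ℤ) (x : Fin (n + 1) → H) (a : ∀ i, A i) : ℚ :=
  ∏ i, ((l (x i.succ) ⟨i, a i⟩ : ℚ) - (l (x i.castSucc) ⟨i, a i⟩ : ℚ))

omit [Group H] in
theorem hpa_single (l : H → (Σ i, A i) → ℤ) (x : Fin (n + 1) → H) (a : ∀ i, A i) (r : ℚ) :
    hpa l a (single x r) = val l x a * r := hp_single _ _ _ _

/-- The tuples where a simplex may have a nonzero coefficient. -/
def Ss (l : H → (Σ i, A i) → ℤ) (m : ℕ) (x : Fin m → H) : Set (∀ i, A i) :=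
  {a | ∀ i, ∃ k, l (x k) ⟨i, a i⟩ ≠ 0}

omit [Group H] in
theorem Ss_finite (l : H → (Σ i, A i) → ℤ) (hl : ∀ g, {v | l g v ≠ 0}.Finite) (m : ℕ)
    (x : Fin m → H) : (Ss l m x).Finite := by
  have h : ∀ i : Fin n, {b : A i | ∃ k, l (x k) ⟨i, b⟩ ≠ 0}.Finite := by
    intro i
    have h1 : {b : A i | ∃ k, l (x k) ⟨i, b⟩ ≠ 0} =
        ⋃ k : Fin m, (fun b : A i => (⟨i, b⟩ : Σ i, A i)) ⁻¹' {v | l (x k) v ≠ 0} := by
      ext b
      simp
    rw [h1]
    exact Set.finite_iUnion fun k => (hl (x k)).preimage sigma_mk_injective.injOn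
  refine (Set.Finite.pi' h).subset ?_
  intro a ha i
  exact ha i

omit [Group H] in
theorem val_zero (l : H → (Σ i, A i) → ℤ) (x : Fin (n + 1) → H) (a : ∀ i, A i)
    (ha : a ∉ Ss l (n + 1) x) : val l x a = 0 := by
  have h : ∃ i, ∀ k, l (x k) ⟨i, a i⟩ = 0 := by
    by_contra hcon
    apply ha
    intro i
    by_contra h2
    apply hcon
    refine ⟨i, fun k => ?_⟩
    by_contra h3
    exact h2 ⟨k, h3⟩
  obtain ⟨i, hi⟩ := h
  unfold val
  apply Finset.prod_eq_zero (Finset.mem_univ i)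
  rw [hi, hi, sub_self]

/-- The sum of the coefficients over the tuples in `O`. -/
noncomputable def PO (l : H → (Σ i, A i) → ℤ) (O : Set (∀ i, A i)) : T (n + 1) H ℚ →ₗ[ℚ] ℚ :=
  lsum ℚ fun x => (∑ᶠ a ∈ O, val l x a) • LinearMap.id

omit [Group H] in
theorem PO_single (l : H → (Σ i, A i) → ℤ) (O : Set (∀ i, A i)) (x : Fin (n + 1) → H) (r : ℚ) :
    PO l O (single x r) = (∑ᶠ a ∈ O, val l x a) * r := by
  simp [PO]

omit [Group H] in
theorem PO_eq_sum (l : H → (Σ i, A i) → ℤ) (O : Set (∀ i, A i)) (z : T (n + 1) H ℚ)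
    (F : Finset (∀ i, A i)) (hF : (F : Set (∀ i, A i)) ⊆ O)
    (hS : ∀ x ∈ z.support, Ss l (n + 1) x ∩ O ⊆ F) : PO l O z = ∑ a ∈ F, hpa l a z := by
  have h1 : ∀ x ∈ z.support, ∑ᶠ a ∈ O, val l x a = ∑ a ∈ F, val l x a := by
    intro x hx
    apply finsum_mem_eq_sum_of_inter_support_eq
    ext a
    constructor
    · rintro ⟨ha, ha2⟩
      refine ⟨hS x hx ⟨?_, ha⟩, ha2⟩
      by_contra h
      exact ha2 (val_zero l x a h)
    · rintro ⟨ha, ha2⟩
      exact ⟨hF ha, ha2⟩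
  have h2 : ∀ a, hpa l a z = ∑ x ∈ z.support, val l x a * z x := by
    intro a
    conv_lhs => rw [← Finsupp.sum_single z]
    rw [Finsupp.sum, map_sum]
    apply Finset.sum_congr rfl
    intro x _
    exact hpa_single l x a (z x)
  have h3 : PO l O z = ∑ x ∈ z.support, (∑ᶠ a ∈ O, val l x a) * z x := by
    conv_lhs => rw [← Finsupp.sum_single z]
    rw [Finsupp.sum, map_sum]
    apply Finset.sum_congr rfl
    intro x _
    exact PO_single l O x (z x)
  rw [h3, Finset.sum_congr rfl fun a _ => h2 a, Finset.sum_comm]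
  apply Finset.sum_congr rfl
  intro x hx
  rw [h1 x hx, Finset.sum_mul]

omit [Group H] in
theorem PO_exists (l : H → (Σ i, A i) → ℤ) (hl : ∀ g, {v | l g v ≠ 0}.Finite)
    (O : Set (∀ i, A i)) (z : T (n + 1) H ℚ) : ∃ F : Finset (∀ i, A i),
      PO l O z = ∑ a ∈ F, hpa l a z := by
  classical
  have h : (⋃ x ∈ z.support, Ss l (n + 1) x ∩ O).Finite :=
    Set.Finite.biUnion z.support.finite_toSet
      fun x _ => (Ss_finite l hl (n + 1) x).subset Set.inter_subset_left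
  refine ⟨h.toFinset, PO_eq_sum l O z _ ?_ ?_⟩
  · rw [Set.Finite.coe_toFinset]
    intro a ha
    rw [Set.mem_iUnion₂] at ha
    obtain ⟨x, _, hx⟩ := ha
    exact hx.2
  · intro x hx
    rw [Set.Finite.coe_toFinset]
    intro a ha
    rw [Set.mem_iUnion₂]
    exact ⟨x, hx, ha⟩

omit [Group H] in
theorem PO_zero (l : H → (Σ i, A i) → ℤ) (hl : ∀ g, {v | l g v ≠ 0}.Finite)
    (O : Set (∀ i, A i)) (z : T (n + 1) H ℚ) (hz : ∀ a, hpa l a z = 0) : PO l O z = 0 := by
  obtain ⟨F, hF⟩ := PO_exists l hl O z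
  rw [hF]
  exact Finset.sum_eq_zero fun a _ => hz a

omit [Group H] in
theorem PO_bd (l : H → (Σ i, A i) → ℤ) (hl : ∀ g, {v | l g v ≠ 0}.Finite)
    (O : Set (∀ i, A i)) (z : T (n + 2) H ℚ) : PO l O (bd (n + 1) z) = 0 :=
  PO_zero l hl O _ fun _ => hp_bd n _ z

variable {π : H →* G} {l : H → (Σ i, A i) → ℤ}

theorem val_mul (hl : CrossLab π l) (g : H) (x : Fin (n + 1) → H) (a : ∀ i, A i) :
    val l (fun k => g * x k) a = val l x ((π g)⁻¹ • a) := by
  unfold val
  apply Finset.prod_congr rfl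
  intro i _
  have e : ((π g)⁻¹ • (⟨i, a i⟩ : Σ i, A i)) = ⟨i, ((π g)⁻¹ • a) i⟩ := rfl
  rw [hl.mul, hl.mul, e]
  push_cast
  ring

theorem PO_tr (hl : CrossLab π l) (O : Set (∀ i, A i)) (hO : ∀ (g : G) a, a ∈ O → g • a ∈ O)
    (g : H) (z : T (n + 1) H ℚ) : PO l O (tr (tQ H) (n + 1) g z) = PO l O z := by
  have h : (PO l O) ∘ₗ (tr (tQ H) (n + 1) g) = PO l O := by
    apply T_ext
    intro x r
    rw [LinearMap.comp_apply]
    unfold tr
    rw [mp_single, PO_single, PO_single]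
    congr 1
    have hO' : ∀ a, (π g)⁻¹ • a ∈ O ↔ a ∈ O := by
      intro a
      constructor
      · intro h
        have h2 := hO (π g) _ h
        rwa [smul_inv_smul] at h2
      · intro h
        exact hO _ a h
    rw [← finsum_comp_equiv (MulAction.toPerm (π g)⁻¹ : Equiv.Perm (∀ i, A i))
      (f := fun a => ∑ᶠ (_ : a ∈ O), val l x a)]
    apply finsum_congr
    intro a
    have e : val l ((fun x => g * x) ∘ x) a = val l x ((π g)⁻¹ • a) := val_mul hl g x a
    rw [e]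
    change ∑ᶠ (_ : a ∈ O), val l x ((π g)⁻¹ • a) =
      ∑ᶠ (_ : (π g)⁻¹ • a ∈ O), val l x ((π g)⁻¹ • a)
    exact finsum_congr_Prop (propext (hO' a).symm) fun _ => rfl
  exact DFunLike.congr_fun h z

/-- The product is a cocycle. -/
theorem PO_dd (hl : CrossLab π l) (O : Set (∀ i, A i)) (hO : ∀ (g : G) a, a ∈ O → g • a ∈ O)
    (z : T (n + 1) H ℚ) : PO l O (sg n (dd (tQ H) n z)) = 0 :=
  inv_dd n (PO l O) (PO_tr hl O hO) (PO_bd l hl.fin O) z

theorem CrossLab.one (hl : CrossLab π l) (v : Σ i, A i) : l 1 v = 0 := by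
  have h := hl.mul 1 1 v
  rw [mul_one, map_one, inv_one, one_smul] at h
  exact left_eq_add.mp h

/-- The value of the product on the simplex `[g₁ | … | gₙ]`. -/
theorem PO_sg_single (hl : CrossLab π l) (O : Set (∀ i, A i)) (g : Fin n → H) (r : ℚ) :
    PO l O (sg n (single g r)) =
      (∑ᶠ a ∈ O, ∏ i, (l (g i) ⟨i, (π (Fin.partialProd g i.castSucc))⁻¹ • a i⟩ : ℚ)) * r := by
  rw [sg_single, PO_single]
  congr 1
  apply finsum_congr
  intro a
  apply finsum_congr
  intro _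
  unfold val
  apply Finset.prod_congr rfl
  intro i _
  rw [Fin.partialProd_succ, hl.mul]
  push_cast
  rw [add_sub_cancel_left]
  rfl

omit [∀ i, MulAction G (A i)] [Group H] in
theorem PO_mp {H' : Type} [Group H'] (l : H → (Σ i, A i) → ℤ) (O : Set (∀ i, A i)) (f : H' → H)
    (z : T (n + 1) H' ℚ) :
    PO l O (mp (n + 1) f LinearMap.id z) = PO (fun g => l (f g)) O z := by
  have h : (PO l O) ∘ₗ (mp (n + 1) f LinearMap.id) = PO (fun g => l (f g)) O := by
    apply T_ext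
    intro x r
    rw [LinearMap.comp_apply, mp_single, PO_single, PO_single]
    rfl
  exact DFunLike.congr_fun h z

end Lab

end Pool.Agent.T6.H32.NC
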