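import Pool.Agent.T6.H32.NC.Cup

/-!
The kernels of natural transformations are annihilated by the products of degree-one classes with
coefficients in permutation modules.
-/

set_option autoImplicit false

namespace Pool.Agent.T6.H32.NC

open Finsupp Pool.Agent.Y483 CategoryTheory Pool.Agent.Y483.PW Pool.Agent.R615.KU
  Pool.Agent.Y75.MQ Pool.Agent.Y110.KW Pool.Agent.R793.Mag Pointwise

section Sec

variable {G : Type} [Group G] {n : ℕ} {A : Fin n → Type} [∀ i, MulAction G (A i)]

/-- The group `ℤ[⨆ A i] ⋊ G`. -/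
abbrev WA (G : Type) [Group G] {n : ℕ} (A : Fin n → Type) [∀ i, MulAction G (A i)] : Type :=
  RW (Multiplicative ℤ) (Σ i, A i) G

/-- The coefficients. -/
def lW (w : WA G A) (v : Σ i, A i) : ℤ := (w.left.1 v).toAdd

theorem lW_cross : CrossLab (SemidirectProduct.rightHom : WA G A →* G) lW where
  mul _ _ _ := rfl
  fin w := by
    have h : (Function.mulSupport w.left.1).Finite := w.left.2
    refine h.subset ?_
    intro v hv h2
    apply hv
    have h3 : w.left.1 v = 1 := h2
    unfold lW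
    rw [h3, toAdd_one]

/-- The section given by crossed homomorphisms. -/
def secA (l : G → (Σ i, A i) → ℤ) (hl : CrossLab (MonoidHom.id G) l) : G →* WA G A where
  toFun g := ⟨⟨fun v => Multiplicative.ofAdd (l g v), (hl.fin g).subset fun v hv h => hv (by
    change Multiplicative.ofAdd (l g v) = 1
    rw [h, ofAdd_zero])⟩, g⟩
  map_one' := by
    apply SemidirectProduct.ext
    · apply Subtype.ext
      funext v
      change Multiplicative.ofAdd (l 1 v) = 1
      rw [hl.one, ofAdd_zero]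
    · rfl
  map_mul' g h := by
    apply SemidirectProduct.ext
    · apply Subtype.ext
      funext v
      change Multiplicative.ofAdd (l (g * h) v) =
        Multiplicative.ofAdd (l g v) * Multiplicative.ofAdd (l h (g⁻¹ • v))
      rw [hl.mul, ofAdd_add]
      rfl
    · rfl

theorem lW_secA (l : G → (Σ i, A i) → ℤ) (hl : CrossLab (MonoidHom.id G) l) (g : G) :
    lW (secA l hl g) = l g := rfl

/-- The labels of the elements with a given finite support are additive. -/
theorem lW_add {σ : Finset (Σ i, A i)} {w x : WA G A}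
    (hw : w ∈ (rfSys (Multiplicative ℤ) (Σ i, A i) G).supG σ)
    (hx : x ∈ (rfSys (Multiplicative ℤ) (Σ i, A i) G).supG σ) (v : Σ i, A i) :
    lW (w * x) v = lW w v + lW x v := by
  classical
  rw [lW_cross.mul]
  congr 1
  change lW x (w.right⁻¹ • v) = lW x v
  have hout : ∀ u, u ∉ σ → lW x u = 0 := by
    intro u hu
    have h1 := congrArg (fun n : RF (Multiplicative ℤ) (Σ i, A i) => n.1 u) hx.1
    have h2 : (rfE (σ : Set (Σ i, A i)) x.left).1 u = x.left.1 u := h1
    rw [rfE_apply, if_neg (fun h => hu (Finset.mem_coe.mp h))] at h2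
    unfold lW
    rw [← h2, toAdd_one]
  by_cases hv : v ∈ σ
  · rw [inv_smul_eq_iff.mpr (hw.2 v hv).symm]
  · rw [hout v hv, hout]
    intro h
    apply hv
    have h2 := hw.2 _ h
    rw [smul_inv_smul] at h2
    rw [h2]
    exact h

end Sec

section Ker

variable {G : Type} [Group G] {E : GrpCat.{0} ⥤ ModuleCat.{0} ℚ}

/-- A function on the chains of `H` which vanishes on the cycles of a class. -/
def VanOn {H : Type} [Group H] (n : ℕ) (F : T n H ℚ →ₗ[ℚ] ℚ) (u : HQ n H) : Prop :=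
  ∀ z, Rpr (Rep.trivial ℚ H ℚ) n z u → F z = 0

theorem VanOn.of_rep {H : Type} [Group H] {n : ℕ} {F : T n H ℚ →ₗ[ℚ] ℚ}
    (hF : ∀ z, F (dd (tQ H) n z) = 0) {u : HQ n H} {z : T n H ℚ}
    (hz : Rpr (Rep.trivial ℚ H ℚ) n z u) (h : F z = 0) : VanOn n F u := by
  intro z' hz'
  have h1 := hz'.sub hz
  have h2 : z' - z ∈ LinearMap.range (dd (tQ H) n) := (h1.eq_zero_iff).mp (sub_self u)
  obtain ⟨w, hw⟩ := h2
  have h3 := hF w
  rw [hw, map_sub, h, sub_zero] at h3
  exact h3

theorem VanOn.add {H : Type} [Group H] {n : ℕ} {F : T n H ℚ →ₗ[ℚ] ℚ}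
    (hF : ∀ z, F (dd (tQ H) n z) = 0) {u v : HQ n H} (hu : VanOn n F u) (hv : VanOn n F v) :
    VanOn n F (u + v) := by
  obtain ⟨z, hz⟩ := exists_rpr (Rep.trivial ℚ H ℚ) n u
  obtain ⟨w, hw⟩ := exists_rpr (Rep.trivial ℚ H ℚ) n v
  refine VanOn.of_rep hF (hz.add hw) ?_
  rw [map_add, hu z hz, hv w hw, add_zero]

theorem VanOn.zero {H : Type} [Group H] {n : ℕ} {F : T n H ℚ →ₗ[ℚ] ℚ}
    (hF : ∀ z, F (dd (tQ H) n z) = 0) : VanOn n F (0 : HQ n H) :=
  VanOn.of_rep hF Rpr.zero (map_zero F)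

/-- A class which dies in every group `ℤ^n` is annihilated by the products of `n` additive
functions. -/
theorem hp_of_torus {L : Type} [Group L] (n : ℕ) (l : Fin n → L → ℤ)
    (hl : ∀ i g h, l i (g * h) = l i g + l i h) (u : HQ n L)
    (hu : ∀ e : L →* Zn n, hqMap e n u = 0) (z : T n L ℚ)
    (hz : Rpr (Rep.trivial ℚ L ℚ) n z u) : hp n (fun i g => (l i g : ℚ)) (sg n z) = 0 := by
  let e : L →* Zn n :=
    { toFun := fun g => Multiplicative.ofAdd fun i => l i g
      map_one' := by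
        apply Multiplicative.toAdd.injective
        funext i
        have h := hl i 1 1
        rw [mul_one] at h
        exact left_eq_add.mp h
      map_mul' := fun g h => by
        apply Multiplicative.toAdd.injective
        funext i
        exact hl i g h }
  have h1 := hz.hq e
  rw [hu e] at h1
  have h2 := (h1.eq_zero_iff).mp rfl
  obtain ⟨w, hw⟩ := h2
  have h3 := hp_add_dd n (fun (i : Fin n) (g : Zn n) => ((Multiplicative.toAdd g i : ℤ) : ℚ))
    (fun i g h => by
      change (((Multiplicative.toAdd g i + Multiplicative.toAdd h i : ℤ)) : ℚ) = _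
      push_cast
      rfl) w
  have h4 : dd (tQ (Zn n)) n w = mp n e LinearMap.id z := hw
  rw [h4, sg_mp, hp_mp] at h3
  exact h3

theorem cup_ker (hE : HasPT E) {S : Type} [Group S] {I : ℕ → Type}
    (α : ∀ j : ℕ, I j → (hq j ⟶ timesF S ⋙ E)) (hα : Indep α) (x : HB (dg (I := I)) G)
    (hx : tb (dg (I := I)) (fam α) G x = 0) (p : Σ j, I j) {A : Fin p.1 → Type}
    [∀ i, MulAction G (A i)] (l : G → (Σ i, A i) → ℤ) (hl : CrossLab (MonoidHom.id G) l)
    (O : Set (∀ i, A i)) (hO : ∀ (g : G) a, a ∈ O → g • a ∈ O) :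
    VanOn p.1 ((PO l O) ∘ₗ (sg p.1)) (x p) := by
  have hF : ∀ z, ((PO (lW (G := G) (A := A)) O) ∘ₗ (sg p.1)) (dd (tQ (WA G A)) p.1 z) = 0 :=
    fun z => PO_dd lW_cross O hO z
  have hmem : hbMap (dg (I := I)) (secA l hl) x ∈
      LinearMap.ker (tb (dg (I := I)) (fam α) (WA G A)) :=
    LinearMap.mem_ker.mpr (tb_map _ _ _ hx)
  have hgen : LinearMap.ker (tb (dg (I := I)) (fam α) (WA G A)) =
      ⨆ σ : (rfSys (Multiplicative ℤ) (Σ i, A i) G).Cl,
        (LinearMap.ker (tb (dg (I := I)) (fam α)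
          ((rfSys (Multiplicative ℤ) (Σ i, A i) G).supG σ.1))).map
          (hbMap (dg (I := I)) ((rfSys (Multiplicative ℤ) (Σ i, A i) G).supG σ.1).subtype) :=
    sys_gen (hE.times S) (fun p : Σ j, I j => α p.1 p.2) (rfSys (Multiplicative ℤ) (Σ i, A i) G)
  rw [hgen] at hmem
  have hcase : ∀ (σ : Finset (Σ i, A i)) (L : Type) [Group L] (f : L →* WA G A)
      (_ : ∀ g, f g ∈ (rfSys (Multiplicative ℤ) (Σ i, A i) G).supG σ)
      (u : HB (dg (I := I)) L), u ∈ LinearMap.ker (tb (dg (I := I)) (fam α) L) →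
      VanOn p.1 ((PO (lW (G := G) (A := A)) O) ∘ₗ (sg p.1)) (hbMap (dg (I := I)) f u p) := by
    intro σ L _ f hf u hu
    rw [hbMap_apply]
    obtain ⟨z, hz⟩ := exists_rpr (Rep.trivial ℚ L ℚ) p.1 (u p)
    refine VanOn.of_rep hF (hz.hq _) ?_
    rw [LinearMap.comp_apply, sg_mp]
    apply PO_zero _ lW_cross.fin
    intro a
    unfold hpa
    rw [hp_mp]
    refine hp_of_torus p.1 (fun (i : Fin p.1) (g : L) => lW (f g) ⟨i, a i⟩) ?_ (u p) ?_ z hz
    · intro i g h
      rw [map_mul]
      exact lW_add (hf g) (hf h) _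
    · intro e
      have h1 : hbMap (dg (I := I)) e u ∈ LinearMap.ker (tb (dg (I := I)) (fam α) (Zn p.1)) :=
        LinearMap.mem_ker.mpr (tb_map _ _ e (LinearMap.mem_ker.mp hu))
      have h2 : LinearMap.ker (tb (dg (I := I)) (fam α) (Zn p.1)) = ⊥ :=
        Det.zn (E := E) p.1 S I α hα
      rw [h2, Submodule.mem_bot] at h1
      rw [← hbMap_apply, h1]
      rfl
  have key : VanOn p.1 ((PO (lW (G := G) (A := A)) O) ∘ₗ (sg p.1))
      (hbMap (dg (I := I)) (secA l hl) x p) := by
    refine Submodule.iSup_induction (R := ℚ) (M := HB (dg (I := I)) (WA G A))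
      (fun σ : (rfSys (Multiplicative ℤ) (Σ i, A i) G).Cl =>
        (LinearMap.ker (tb (dg (I := I)) (fam α)
          ((rfSys (Multiplicative ℤ) (Σ i, A i) G).supG σ.1))).map
          (hbMap (dg (I := I)) ((rfSys (Multiplicative ℤ) (Σ i, A i) G).supG σ.1).subtype))
      (motive := fun y => VanOn p.1 ((PO (lW (G := G) (A := A)) O) ∘ₗ (sg p.1)) (y p))
      hmem ?_ ?_ ?_
    · rintro σ _ ⟨u, hu, rfl⟩
      exact hcase σ.1 _ ((rfSys (Multiplicative ℤ) (Σ i, A i) G).supG σ.1).subtype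
        (fun g => g.2) u hu
    · exact VanOn.zero hF
    · intro y y' hy hy'
      exact VanOn.add hF hy hy'
  intro z hz
  have h1 := key (mp p.1 (secA l hl) LinearMap.id z) (by
    rw [hbMap_apply]
    exact hz.hq (secA l hl))
  rw [LinearMap.comp_apply, sg_mp, PO_mp] at h1
  exact h1

end Ker

end Pool.Agent.T6.H32.NC
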