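import Pool.Agent.Y483.Main

/-!
Products of differences of functions, as cocycles.
-/

set_option autoImplicit false

namespace Pool.Agent.T6.H32.NC

open Finsupp Pool.Agent.Y483

section HP

variable {Y : Type}

/-- The function `∏ᵢ (lᵢ(xᵢ₊₁) - lᵢ(xᵢ))` on homogeneous simplices. -/
noncomputable def hp (n : ℕ) (l : Fin n → Y → ℚ) : T (n + 1) Y ℚ →ₗ[ℚ] ℚ :=
  lsum ℚ fun x => (∏ i, (l i (x i.succ) - l i (x i.castSucc))) • LinearMap.id

theorem hp_single (n : ℕ) (l : Fin n → Y → ℚ) (x : Fin (n + 1) → Y) (r : ℚ) :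
    hp n l (single x r) = (∏ i, (l i (x i.succ) - l i (x i.castSucc))) * r := by
  simp [hp]

theorem hp_cone_cone (n : ℕ) (l : Fin (n + 1) → Y → ℚ) (a b : Y) (y : T n Y ℚ) :
    hp (n + 1) l (cone (n + 1) a (cone n b y)) =
      (l 0 b - l 0 a) * hp n (fun i => l i.succ) (cone n b y) := by
  have h : (hp (n + 1) l) ∘ₗ (cone (n + 1) a) ∘ₗ (cone n b) =
      (l 0 b - l 0 a) • ((hp n (fun i => l i.succ)) ∘ₗ (cone n b)) := by
    apply T_ext
    intro x r
    rw [LinearMap.comp_apply, LinearMap.comp_apply, LinearMap.smul_apply, LinearMap.comp_apply,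
      cone_single, cone_single, hp_single, hp_single, Fin.prod_univ_succ, smul_eq_mul, mul_assoc]
    rfl
  exact DFunLike.congr_fun h y

theorem hp_bd (n : ℕ) (l : Fin n → Y → ℚ) (z : T (n + 2) Y ℚ) : hp n l (bd (n + 1) z) = 0 := by
  induction n with
  | zero =>
    have h : (hp 0 l) ∘ₗ (bd 1) = 0 := by
      apply T_ext
      intro x r
      rw [LinearMap.comp_apply, single_eq_cone, single_eq_cone, bd_cone_succ, bd_cone_zero,
        map_sub, cone_single, cone_single, hp_single, hp_single, LinearMap.zero_apply]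
      simp
    exact DFunLike.congr_fun h z
  | succ n ih =>
    have h : (hp (n + 1) l) ∘ₗ (bd (n + 2)) = 0 := by
      apply T_ext
      intro x r
      rw [LinearMap.comp_apply, single_eq_cone, single_eq_cone, single_eq_cone]
      generalize (x 0) = a
      generalize (Fin.tail x 0) = b
      generalize (Fin.tail (Fin.tail x) 0) = c
      set y : T n Y ℚ := single _ r
      rw [bd_cone_succ, bd_cone_succ, map_sub (cone (n + 1) a), map_sub, map_sub, hp_cone_cone,
        hp_cone_cone, hp_cone_cone, LinearMap.zero_apply]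
      have h1 := ih (fun i => l i.succ) (cone (n + 1) b (cone n c y))
      rw [bd_cone_succ, map_sub, sub_eq_zero] at h1
      rw [← h1]
      ring
    exact DFunLike.congr_fun h z

theorem hp_mp {Z : Type} (n : ℕ) (l : Fin n → Y → ℚ) (f : Z → Y) (z : T (n + 1) Z ℚ) :
    hp n l (mp (n + 1) f LinearMap.id z) = hp n (fun i => l i ∘ f) z := by
  have h : (hp n l) ∘ₗ (mp (n + 1) f LinearMap.id) = hp n (fun i => l i ∘ f) := by
    apply T_ext
    intro x r
    rw [LinearMap.comp_apply, mp_single, hp_single, hp_single]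
    rfl
  exact DFunLike.congr_fun h z

theorem sg_mp {G H : Type} [Group G] [Group H] (f : G →* H) (n : ℕ) (z : T n G ℚ) :
    sg n (mp n f LinearMap.id z) = mp (n + 1) f LinearMap.id (sg n z) := by
  have h : (sg n) ∘ₗ (mp n f LinearMap.id) = (mp (n + 1) f LinearMap.id) ∘ₗ
      (sg (M := ℚ) n) := by
    apply T_ext
    intro x r
    rw [LinearMap.comp_apply, LinearMap.comp_apply, mp_single, sg_single, sg_single, mp_single]
    congr 1
    funext i
    induction i using Fin.induction with
    | zero => rw [Fin.partialProd_zero, Function.comp_apply, Fin.partialProd_zero, map_one]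
    | succ i ih =>
      rw [Fin.partialProd_succ, ih, Function.comp_apply, Function.comp_apply, Function.comp_apply,
        Fin.partialProd_succ, map_mul]
  exact DFunLike.congr_fun h z

/-- An invariant function which vanishes on the boundaries of homogeneous chains vanishes on the
boundaries of inhomogeneous chains. -/
theorem inv_dd {G : Type} [Group G] (n : ℕ) (P : T (n + 1) G ℚ →ₗ[ℚ] ℚ)
    (hinv : ∀ g z, P (tr (tQ G) (n + 1) g z) = P z) (hbd : ∀ z, P (bd (n + 1) z) = 0)
    (z : T (n + 1) G ℚ) : P (sg n (dd (tQ G) n z)) = 0 := by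
  have h := factor (tQ G) n P hinv (bd (n + 1) (sg (n + 1) z))
  rw [pp_bd, pp_sg, hbd] at h
  exact h.symm

/-- Products of additive functions vanish on boundaries. -/
theorem hp_add_dd {G : Type} [Group G] (n : ℕ) (l : Fin n → G → ℚ)
    (hl : ∀ i g h, l i (g * h) = l i g + l i h) (z : T (n + 1) G ℚ) :
    hp n l (sg n (dd (tQ G) n z)) = 0 := by
  refine inv_dd n (hp n l) ?_ (hp_bd n l) z
  intro g w
  have h : (hp n l) ∘ₗ (tr (tQ G) (n + 1) g) = hp n l := by
    apply T_ext
    intro x r
    rw [LinearMap.comp_apply]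
    unfold tr
    rw [mp_single, hp_single, hp_single]
    congr 1
    apply Finset.prod_congr rfl
    intro i _
    rw [Function.comp_apply, Function.comp_apply, hl, hl]
    ring
  exact DFunLike.congr_fun h w

end HP

end Pool.Agent.T6.H32.NC
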