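import Pool.Agent.Y483.Mono
import Pool.Agent.Y483.Main

/-!
The transfer along a pair of cocycles, on the rational chains of groups.
-/

set_option autoImplicit false

namespace Pool.Agent.T6.H32.NC

open Finsupp Pool.Agent.Y483 CategoryTheory

theorem perm_apply_inv {A : Type} (f : Equiv.Perm A) (a : A) : f (f⁻¹ a) = a :=
  f.apply_symm_apply a

section Lab

variable {G A K : Type} [Group G] [Group K]

/-- The label `c(x, x⁻¹ a)` with which `x` arrives at the point `a`. -/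
def lab (σ : G →* Equiv.Perm A) (c : G → A → K) (x : G) (a : A) : K := c x ((σ x)⁻¹ a)

theorem lab_mul {σ : G →* Equiv.Perm A} {c : G → A → K}
    (h : ∀ g h a, c (g * h) a = c g (σ h a) * c h a) (g x : G) (a : A) :
    lab σ c (g * x) a = lab σ c g a * lab σ c x ((σ g)⁻¹ a) := by
  unfold lab
  rw [h, map_mul, mul_inv_rev, Equiv.Perm.mul_apply, perm_apply_inv]

/-- The homogeneous simplex of the labels at `a`, as an inhomogeneous chain. -/
noncomputable def hs (σ : G →* Equiv.Perm A) (c : G → A → K) (n : ℕ) (x : Fin (n + 1) → G)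
    (a : A) : T n K ℚ := pp (tQ K) n (single (fun i => lab σ c (x i) a) 1)

theorem hs_mul {σ : G →* Equiv.Perm A} {c : G → A → K}
    (h : ∀ g h a, c (g * h) a = c g (σ h a) * c h a) (n : ℕ) (x : Fin (n + 1) → G) (g : G)
    (a : A) : hs σ c n (fun i => g * x i) a = hs σ c n x ((σ g)⁻¹ a) := by
  unfold hs
  rw [← pp_tr (tQ K) n (lab σ c g a) (single (fun i => lab σ c (x i) ((σ g)⁻¹ a)) 1)]
  unfold tr
  rw [mp_single]
  congr 2
  funext i
  exact lab_mul h g (x i) a

theorem hs_dd (σ : G →* Equiv.Perm A) (c : G → A → K) (n : ℕ) (x : Fin (n + 2) → G) (a : A) :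
    dd (tQ K) n (hs σ c (n + 1) x a) =
      ∑ i : Fin (n + 2), ((-1 : ℚ) ^ (i : ℕ)) • hs σ c n (x ∘ i.succAbove) a := by
  unfold hs
  rw [← pp_bd, bd_single, map_sum]
  apply Finset.sum_congr rfl
  intro i _
  rw [map_smul]
  rfl

theorem hs_partialProd {σ : G →* Equiv.Perm A} {c : G → A → K}
    (h : ∀ g h a, c (g * h) a = c g (σ h a) * c h a) (n : ℕ) (g : Fin n → G) (a : A) :
    hs σ c n (Fin.partialProd g) a =
      single (fun i => c (g i) ((σ (Fin.partialProd g i.succ))⁻¹ a)) 1 := by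
  unfold hs
  rw [pp_single]
  congr 1
  funext i
  rw [Fin.partialProd_succ, lab_mul h, inv_mul_cancel_left]
  unfold lab
  rw [map_mul, mul_inv_rev, Equiv.Perm.mul_apply]

end Lab

section Transfer

variable {G A K : Type} [Group G] [Group K] (κ : FinPair G A K)

/-- The points at which the labels of a simplex disagree. -/
def dis (n : ℕ) (x : Fin n → G) : Set A := {a | ∃ i, lab κ.σ κ.c (x i) a ≠ lab κ.σ κ.d (x i) a}

theorem dis_finite (n : ℕ) (x : Fin n → G) : (dis κ n x).Finite := by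
  have h : dis κ n x ⊆ ⋃ i : Fin n, (κ.σ (x i)) '' {a | κ.c (x i) a ≠ κ.d (x i) a} := by
    rintro a ⟨i, hi⟩
    rw [Set.mem_iUnion]
    exact ⟨i, (κ.σ (x i))⁻¹ a, hi, perm_apply_inv _ _⟩
  exact (Set.finite_iUnion fun i => (κ.fin (x i)).image _).subset h

theorem hs_eq_of_notMem (n : ℕ) (x : Fin (n + 1) → G) (a : A) (ha : a ∉ dis κ (n + 1) x) :
    hs κ.σ κ.c n x a = hs κ.σ κ.d n x a := by
  have h : ∀ i, lab κ.σ κ.c (x i) a = lab κ.σ κ.d (x i) a := by
    intro i
    by_contra hi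
    exact ha ⟨i, hi⟩
  unfold hs
  congr 2
  funext i
  exact h i

/-- The value of the transfer on a homogeneous simplex. -/
noncomputable def hv (n : ℕ) (x : Fin (n + 1) → G) : T n K ℚ :=
  ∑ᶠ a : A, (hs κ.σ κ.c n x a - hs κ.σ κ.d n x a)

theorem hv_eq (n : ℕ) (x : Fin (n + 1) → G) (Y : Finset A) (hY : dis κ (n + 1) x ⊆ Y) :
    hv κ n x = ∑ a ∈ Y, (hs κ.σ κ.c n x a - hs κ.σ κ.d n x a) := by
  unfold hv
  apply finsum_eq_sum_of_support_subset
  intro a ha
  by_contra h
  apply ha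
  have h1 := hs_eq_of_notMem κ n x a (fun h' => h (hY h'))
  change hs κ.σ κ.c n x a - hs κ.σ κ.d n x a = 0
  rw [h1, sub_self]

theorem hv_mul (n : ℕ) (x : Fin (n + 1) → G) (g : G) : hv κ n (fun i => g * x i) = hv κ n x := by
  unfold hv
  rw [← finsum_comp_equiv ((κ.σ g)⁻¹ : Equiv.Perm A)
    (f := fun a => hs κ.σ κ.c n x a - hs κ.σ κ.d n x a)]
  apply finsum_congr
  intro a
  rw [hs_mul κ.mul_c, hs_mul κ.mul_d]

theorem hv_dd (n : ℕ) (x : Fin (n + 2) → G) :
    dd (tQ K) n (hv κ (n + 1) x) =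
      ∑ i : Fin (n + 2), ((-1 : ℚ) ^ (i : ℕ)) • hv κ n (x ∘ i.succAbove) := by
  have hf := dis_finite κ (n + 2) x
  have hc : dis κ (n + 2) x ⊆ (hf.toFinset : Set A) := by
    rw [Set.Finite.coe_toFinset]
  rw [hv_eq κ (n + 1) x hf.toFinset hc, map_sum]
  have h1 : ∀ i : Fin (n + 2), hv κ n (x ∘ i.succAbove) =
      ∑ a ∈ hf.toFinset, (hs κ.σ κ.c n (x ∘ i.succAbove) a - hs κ.σ κ.d n (x ∘ i.succAbove) a) := by
    intro i
    apply hv_eq
    refine Set.Subset.trans ?_ hc
    rintro a ⟨k, hk⟩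
    exact ⟨i.succAbove k, hk⟩
  simp only [h1, Finset.smul_sum]
  rw [Finset.sum_comm]
  apply Finset.sum_congr rfl
  intro a _
  rw [map_sub, hs_dd, hs_dd, ← Finset.sum_sub_distrib]
  apply Finset.sum_congr rfl
  intro i _
  rw [smul_sub]

/-- The value of the transfer on the simplex `[g₁ | … | gₙ]`: the sum over `a` of
`[c(g₁, g₁⁻¹ a) | c(g₂, (g₁ g₂)⁻¹ a) | …] - [d(g₁, g₁⁻¹ a) | d(g₂, (g₁ g₂)⁻¹ a) | …]`. -/
noncomputable def bv (n : ℕ) (g : Fin n → G) : T n K ℚ :=
  ∑ᶠ a : A, (single (fun i => κ.c (g i) ((κ.σ (Fin.partialProd g i.succ))⁻¹ a)) (1 : ℚ) -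
    single (fun i => κ.d (g i) ((κ.σ (Fin.partialProd g i.succ))⁻¹ a)) (1 : ℚ))

theorem bv_eq (n : ℕ) (g : Fin n → G) : bv κ n g = hv κ n (Fin.partialProd g) := by
  unfold bv hv
  apply finsum_congr
  intro a
  rw [hs_partialProd κ.mul_c, hs_partialProd κ.mul_d]

/-- The transfer on inhomogeneous chains. -/
noncomputable def Fc (n : ℕ) : T n G ℚ →ₗ[ℚ] T n K ℚ :=
  lsum ℚ fun g => LinearMap.toSpanSingleton ℚ _ (bv κ n g)

theorem Fc_single (n : ℕ) (g : Fin n → G) (r : ℚ) : Fc κ n (single g r) = r • bv κ n g := by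
  simp [Fc]

/-- The transfer on homogeneous chains. -/
noncomputable def Fh (n : ℕ) : T (n + 1) G ℚ →ₗ[ℚ] T n K ℚ :=
  lsum ℚ fun x => LinearMap.toSpanSingleton ℚ _ (hv κ n x)

theorem Fh_single (n : ℕ) (x : Fin (n + 1) → G) (r : ℚ) :
    Fh κ n (single x r) = r • hv κ n x := by
  simp [Fh]

theorem Fh_sg (n : ℕ) (z : T n G ℚ) : Fh κ n (sg n z) = Fc κ n z := by
  have h : (Fh κ n) ∘ₗ (sg n) = Fc κ n := by
    apply T_ext
    intro g r
    rw [LinearMap.comp_apply, sg_single, Fh_single, Fc_single, bv_eq]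
  exact DFunLike.congr_fun h z

theorem Fh_tr (n : ℕ) (g : G) (z : T (n + 1) G ℚ) :
    Fh κ n (tr (tQ G) (n + 1) g z) = Fh κ n z := by
  have h : (Fh κ n) ∘ₗ (tr (tQ G) (n + 1) g) = Fh κ n := by
    apply T_ext
    intro x r
    rw [LinearMap.comp_apply]
    unfold tr
    rw [mp_single, Fh_single, Fh_single]
    congr 1
    exact hv_mul κ n x g
  exact DFunLike.congr_fun h z

theorem Fh_bd (n : ℕ) (z : T (n + 2) G ℚ) :
    dd (tQ K) n (Fh κ (n + 1) z) = Fh κ n (bd (n + 1) z) := by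
  have h : (dd (tQ K) n) ∘ₗ (Fh κ (n + 1)) = (Fh κ n) ∘ₗ (bd (n + 1)) := by
    apply T_ext
    intro x r
    rw [LinearMap.comp_apply, LinearMap.comp_apply, Fh_single, map_smul, hv_dd, bd_single, map_sum,
      Finset.smul_sum]
    apply Finset.sum_congr rfl
    intro i _
    rw [map_smul, Fh_single, smul_comm]
  exact DFunLike.congr_fun h z

/-- The transfer is a chain map. -/
theorem Fc_dd (n : ℕ) (z : T (n + 1) G ℚ) :
    dd (tQ K) n (Fc κ (n + 1) z) = Fc κ n (dd (tQ G) n z) := by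
  rw [← Fh_sg, Fh_bd, factor (tQ G) n (Fh κ n) (Fh_tr κ n), pp_bd, pp_sg, Fh_sg]

end Transfer

section Fixed

variable {G A K G₀ : Type} [Group G] [Group K] [Group G₀] (κ : FinPair G A K)

theorem map_partialProd (j : G₀ →* G) (n : ℕ) (g : Fin n → G₀) (i : Fin (n + 1)) :
    Fin.partialProd (j ∘ g) i = j (Fin.partialProd g i) := by
  induction i using Fin.induction with
  | zero => rw [Fin.partialProd_zero, Fin.partialProd_zero, map_one]
  | succ i ih => rw [Fin.partialProd_succ, Fin.partialProd_succ, ih, map_mul]; rfl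

/-- The composite with a homomorphism. -/
def compP (j : G₀ →* G) : FinPair G₀ A K where
  σ := κ.σ.comp j
  c g a := κ.c (j g) a
  d g a := κ.d (j g) a
  mul_c g h a := by rw [map_mul, κ.mul_c]; rfl
  mul_d g h a := by rw [map_mul, κ.mul_d]; rfl
  fin g := κ.fin (j g)

theorem Fc_comp (j : G₀ →* G) (n : ℕ) (z : T n G₀ ℚ) :
    Fc (compP κ j) n z = Fc κ n (mp n j LinearMap.id z) := by
  have h : Fc (compP κ j) n = (Fc κ n) ∘ₗ (mp n j LinearMap.id) := by
    apply T_ext
    intro g r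
    rw [LinearMap.comp_apply, mp_single, Fc_single, Fc_single]
    congr 1
    unfold bv
    apply finsum_congr
    intro a
    have e : ∀ i, (compP κ j).σ (Fin.partialProd g i) = κ.σ (Fin.partialProd (j ∘ g) i) := by
      intro i
      rw [map_partialProd]
      rfl
    simp only [e]
    rfl
  exact DFunLike.congr_fun h z

/-- The value of the transfer on the chains of a group which fixes a finite set and whose labels
agree outside this set. -/
theorem Fc_fix (j : G₀ →* G) (Y : Finset A) (lc ld : A → (G₀ →* K))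
    (h1 : ∀ a ∈ Y, ∀ g, κ.σ (j g) a = a ∧ lc a g = κ.c (j g) a ∧ ld a g = κ.d (j g) a)
    (h2 : ∀ a ∉ Y, ∀ g, κ.c (j g) a = κ.d (j g) a) (n : ℕ) (z : T n G₀ ℚ) :
    Fc κ n (mp n j LinearMap.id z) =
      ∑ a ∈ Y, (mp n (lc a) LinearMap.id z - mp n (ld a) LinearMap.id z) := by
  have hfix : ∀ a ∈ Y, ∀ g, (κ.σ (j g))⁻¹ a = a := by
    intro a ha g
    rw [Equiv.Perm.inv_eq_iff_eq]
    exact ((h1 a ha g).1).symm
  have hout : ∀ a ∉ Y, ∀ g, (κ.σ (j g))⁻¹ a ∉ Y := by
    intro a ha g h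
    apply ha
    have h3 := (h1 _ h g).1
    rw [perm_apply_inv] at h3
    rw [h3]
    exact h
  have h : (Fc κ n) ∘ₗ (mp n j LinearMap.id) =
      ∑ a ∈ Y, (mp n (lc a) LinearMap.id - mp n (ld a) LinearMap.id) := by
    apply T_ext
    intro g r
    rw [LinearMap.comp_apply, mp_single, Fc_single, LinearMap.sum_apply]
    have e : bv κ n (j ∘ g) = ∑ a ∈ Y, (single (fun i => lc a (g i)) (1 : ℚ) -
        single (fun i => ld a (g i)) (1 : ℚ)) := by
      unfold bv
      rw [finsum_eq_sum_of_support_subset (s := Y)]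
      · apply Finset.sum_congr rfl
        intro a ha
        congr 2
        · funext i
          rw [map_partialProd, hfix a ha, (h1 a ha (g i)).2.1]
          rfl
        · funext i
          rw [map_partialProd, hfix a ha, (h1 a ha (g i)).2.2]
          rfl
      · intro a ha
        by_contra hY
        apply ha
        rw [sub_eq_zero]
        congr 1
        funext i
        rw [map_partialProd]
        exact h2 _ (hout a (fun h => hY (Finset.mem_coe.mpr h)) _) (g i)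
    rw [e, Finset.smul_sum]
    apply Finset.sum_congr rfl
    intro a _
    rw [LinearMap.sub_apply, mp_single, mp_single, smul_sub, smul_single, smul_single, smul_eq_mul,
      mul_one]
    rfl
  have h3 := DFunLike.congr_fun h z
  rw [LinearMap.comp_apply, LinearMap.sum_apply] at h3
  exact h3

end Fixed

section Homology

variable {G A K : Type} [Group G] [Group K] (κ : FinPair G A K)

/-- The transfer, as a morphism of complexes. -/
noncomputable def chMap : groupHomology.inhomogeneousChains (Rep.trivial ℚ G ℚ) ⟶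
    groupHomology.inhomogeneousChains (Rep.trivial ℚ K ℚ) where
  f n := ModuleCat.ofHom (Fc κ n)
  comm' i j hij := by
    obtain rfl : j + 1 = i := hij
    apply ModuleCat.hom_ext
    apply LinearMap.ext
    intro z
    change (groupHomology.inhomogeneousChains (Rep.trivial ℚ K ℚ)).d (j + 1) j (Fc κ (j + 1) z) =
      Fc κ j ((groupHomology.inhomogeneousChains (Rep.trivial ℚ G ℚ)).d (j + 1) j z)
    have e1 := d_eq_dd (A := Rep.trivial ℚ K ℚ) j (Fc κ (j + 1) z)
    have e2 := d_eq_dd (A := Rep.trivial ℚ G ℚ) j z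
    refine e1.trans ((Fc_dd κ j z).trans ?_)
    exact congrArg (Fc κ j) e2.symm

/-- The transfer on rational homology. -/
noncomputable def trH (n : ℕ) : HQ n G →ₗ[ℚ] HQ n K :=
  (HomologicalComplex.homologyMap (chMap κ) n).hom

theorem Rpr.trH {n : ℕ} {z : T n G ℚ} {x : HQ n G} (h : Rpr (Rep.trivial ℚ G ℚ) n z x) :
    Rpr (Rep.trivial ℚ K ℚ) n (Fc κ n z) (trH κ n x) := by
  obtain ⟨y, rfl, rfl⟩ := h
  refine ⟨(HomologicalComplex.cyclesMap (chMap κ) n) y, ?_, ?_⟩
  · have h1 : HomologicalComplex.cyclesMap (chMap κ) n ≫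
        groupHomology.iCycles (Rep.trivial ℚ K ℚ) n =
        groupHomology.iCycles (Rep.trivial ℚ G ℚ) n ≫ (chMap κ).f n :=
      HomologicalComplex.cyclesMap_i _ _
    exact congrArg (fun g => g.hom y) h1
  · have h1 := HomologicalComplex.homologyπ_naturality (chMap κ) n
    exact (congrArg (fun g => g.hom y) h1).symm

theorem eq_of_rpr {n : ℕ} {z : T n G ℚ} {x y : HQ n G} (h : Rpr (Rep.trivial ℚ G ℚ) n z x)
    (h' : Rpr (Rep.trivial ℚ G ℚ) n z y) : x = y := by
  have h1 := h.sub h'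
  rw [← sub_eq_zero, h1.eq_zero_iff, sub_self]
  exact Submodule.zero_mem _

theorem Rpr.sumR {n : ℕ} {ι : Type} (s : Finset ι) (z : ι → T n G ℚ) (x : ι → HQ n G)
    (h : ∀ i ∈ s, Rpr (Rep.trivial ℚ G ℚ) n (z i) (x i)) :
    Rpr (Rep.trivial ℚ G ℚ) n (∑ i ∈ s, z i) (∑ i ∈ s, x i) := by
  classical
  induction s using Finset.induction_on with
  | empty =>
    rw [Finset.sum_empty, Finset.sum_empty]
    exact Rpr.zero
  | insert i s hi ih =>
    rw [Finset.sum_insert hi, Finset.sum_insert hi]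
    exact (h i (Finset.mem_insert_self i s)).add
      (ih fun k hk => h k (Finset.mem_insert_of_mem hk))

variable {G₀ : Type} [Group G₀]

theorem trH_comp (j : G₀ →* G) (n : ℕ) (x : HQ n G₀) :
    trH (compP κ j) n x = trH κ n (hqMap j n x) := by
  obtain ⟨z, hz⟩ := exists_rpr (Rep.trivial ℚ G₀ ℚ) n x
  have h1 := Rpr.trH (compP κ j) hz
  rw [Fc_comp] at h1
  exact eq_of_rpr h1 (Rpr.trH κ (hz.hq j))

theorem trH_fix (j : G₀ →* G) (Y : Finset A) (lc ld : A → (G₀ →* K))
    (h1 : ∀ a ∈ Y, ∀ g, κ.σ (j g) a = a ∧ lc a g = κ.c (j g) a ∧ ld a g = κ.d (j g) a)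
    (h2 : ∀ a ∉ Y, ∀ g, κ.c (j g) a = κ.d (j g) a) (n : ℕ) (x : HQ n G₀) :
    trH κ n (hqMap j n x) = ∑ a ∈ Y, (hqMap (lc a) n x - hqMap (ld a) n x) := by
  obtain ⟨z, hz⟩ := exists_rpr (Rep.trivial ℚ G₀ ℚ) n x
  have h3 := Rpr.trH κ (hz.hq j)
  rw [Fc_fix κ j Y lc ld h1 h2] at h3
  exact eq_of_rpr h3 (Rpr.sumR Y _ _ fun a _ => (hz.hq (lc a)).sub (hz.hq (ld a)))

end Homology

end Pool.Agent.T6.H32.NC
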