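import Pool.Agent.T6.H32.NC.CupK

/-!
Detection by transfers along pairs.
-/

set_option autoImplicit false

namespace Pool.Agent.T6.H32.NC

open Finsupp Pool.Agent.Y483 CategoryTheory Pool.Agent.Y483.PW Pool.Agent.R615.KU
  Pool.Agent.Y75.MQ Pool.Agent.Y110.KW Pool.Agent.R793.Mag DirectSum

section Fam

variable {G A K : Type} [Group G] [Group K] (κ : FinPair G A K)
  {E : GrpCat.{0} ⥤ ModuleCat.{0} ℚ} {B : Type} (d : B → ℕ)

/-- The transfer on a direct sum of homology groups. -/
noncomputable def hbTr : HB d G →ₗ[ℚ] HB d K := DirectSum.lmap (fun b : B => trH κ (d b))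

theorem hbTr_apply (x : HB d G) (b : B) : hbTr κ d x b = trH κ (d b) (x b) := by
  unfold hbTr
  exact DirectSum.lmap_apply _ _ _

theorem hbTr_of [DecidableEq B] (b : B) (x : HQ (d b) G) :
    hbTr κ d (DirectSum.of (fun b : B => HQ (d b) G) b x) =
      DirectSum.of (fun b : B => HQ (d b) K) b (trH κ (d b) x) := by
  unfold hbTr
  exact DirectSum.lmap_lof _ _ _

theorem tb_tr (Φ : E.obj (GrpCat.of G) →ₗ[ℚ] E.obj (GrpCat.of K))
    (hΦ : ∀ (n : ℕ) (α : hq n ⟶ E) (x : HQ n G), Φ (ap α G x) = ap α K (trH κ n x))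
    (α : ∀ b : B, hq (d b) ⟶ E) (x : HB d G) :
    Φ (tb d α G x) = tb d α K (hbTr κ d x) := by
  classical
  have h : Φ ∘ₗ (tb d α G) = (tb d α K) ∘ₗ (hbTr κ d) := by
    apply DirectSum.linearMap_ext
    intro b
    apply LinearMap.ext
    intro y
    have e1 : tb d α G (DirectSum.lof ℚ B (fun b : B => HQ (d b) G) b y) =
      ((α b).app (GrpCat.of G)).hom y := tb_of d α G b y
    have e2 : hbTr κ d (DirectSum.lof ℚ B (fun b : B => HQ (d b) G) b y) =
      DirectSum.of (fun b : B => HQ (d b) K) b (trH κ (d b) y) := hbTr_of κ d b y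
    change Φ (tb d α G (DirectSum.lof ℚ B (fun b : B => HQ (d b) G) b y)) =
      tb d α K (hbTr κ d (DirectSum.lof ℚ B (fun b : B => HQ (d b) G) b y))
    rw [e1, e2, tb_of]
    exact hΦ (d b) (α b) y
  exact DFunLike.congr_fun h x

/-- The transfers preserve the kernels. -/
theorem ker_tr (hE : HasPT E) (α : ∀ b : B, hq (d b) ⟶ E) {x : HB d G}
    (hx : tb d α G x = 0) : tb d α K (hbTr κ d x) = 0 := by
  obtain ⟨Φ, hΦ⟩ := comm κ hE
  rw [← tb_tr κ d Φ hΦ, hx, map_zero]

end Fam

/-- The classes of degree `j` which are nonzero after finitely many homomorphisms and transfers along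
pairs which end at a group with the property `C`. -/
inductive Visible (C : (K : Type) → [Group K] → Prop) (j : ℕ) :
    (G : Type) → (_ : Group G) → HQ j G → Prop
  | base (G : Type) [hG : Group G] (_ : C G) (x : HQ j G) (_ : x ≠ 0) : Visible C j G hG x
  | map (G K : Type) [hG : Group G] [hK : Group K] (f : G →* K) (x : HQ j G)
      (_ : Visible C j K hK (hqMap f j x)) : Visible C j G hG x
  | transfer (G A K : Type) [hG : Group G] [hK : Group K] (κ : FinPair G A K) (x : HQ j G)
      (_ : Visible C j K hK (trH κ j x)) : Visible C j G hG x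

variable {E : GrpCat.{0} ⥤ ModuleCat.{0} ℚ}

theorem Visible.not_ker (hE : HasPT E) {S : Type} [Group S] {I : ℕ → Type}
    (α : ∀ j : ℕ, I j → (hq j ⟶ timesF S ⋙ E)) (hα : Indep α) {j : ℕ} {G : Type} {hG : Group G}
    {y : HQ j G} (h : Visible (fun K _ => Det E K) j G hG y) :
    ∀ (x : HB (dg (I := I)) G), tb (dg (I := I)) (fam α) G x = 0 →
      ∀ i : I j, x ⟨j, i⟩ = y → False := by
  induction h with
  | base G hd y hy =>
    intro x hx i hi
    have h1 : LinearMap.ker (tb (dg (I := I)) (fam α) G) = ⊥ := hd S I α hα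
    have h2 : x = 0 := (Submodule.mem_bot ℚ).mp (h1 ▸ LinearMap.mem_ker.mpr hx)
    apply hy
    rw [← hi, h2]
    rfl
  | map G K f y _ ih =>
    intro x hx i hi
    refine ih (hbMap (dg (I := I)) f x) (tb_map _ _ f hx) i ?_
    rw [hbMap_apply, hi]
  | transfer G A K κ y _ ih =>
    intro x hx i hi
    refine ih (hbTr κ (dg (I := I)) x) (ker_tr κ _ (hE.times S) _ hx) i ?_
    rw [hbTr_apply, hi]

/-- A group whose nonzero rational homology classes are all visible is detecting. -/
theorem Det.visible (hE : HasPT E) {G : Type} [hG : Group G]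
    (h : ∀ (j : ℕ) (x : HQ j G), x ≠ 0 → Visible (fun K _ => Det E K) j G hG x) : Det E G := by
  intro S _ I α hα
  change LinearMap.ker (tb (dg (I := I)) (fam α) G) = ⊥
  rw [eq_bot_iff]
  intro x hx
  rw [Submodule.mem_bot]
  apply DFunLike.ext
  rintro ⟨j, i⟩
  change x ⟨j, i⟩ = 0
  by_contra hne
  exact (h j (x ⟨j, i⟩) hne).not_ker hE α hα x (LinearMap.mem_ker.mp hx) i rfl

end Pool.Agent.T6.H32.NC
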